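import Pool.Agent.TMX.Stmts4

/-!
# Squad TMX (MP_b61ad0_an), row NC: a hill between two tangent balls
-/

namespace Pool.Agent.TMX.H47

open Finset
open Pool.Agent.Helper51_Max (I IsMax)
open Pool.Agent.TMX

theorem nc : NC := by
  intro N g M hM y z v r hyz hzv hrz hzr hy hv hyv heq h1 h2
  by_contra hcon
  push Not at hcon
  set G : Finset ℕ := (Icc (z - r) (z + r)).filter
    (fun s => 2 * y + r < s + z ∧ s + z + r < 2 * v) with hG
  have hB : I N z r = I N y (y + r - z) ∪ (I N v (z + r - v) ∪ G) := by
    ext i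
    simp only [I, hG, mem_union, mem_Icc, mem_filter]
    omega
  have d1 : Disjoint (I N v (z + r - v)) G := by
    rw [Finset.disjoint_left]
    intro i hi hi2
    simp only [I, hG, mem_Icc, mem_filter] at hi hi2
    omega
  have d2 : Disjoint (I N y (y + r - z)) (I N v (z + r - v) ∪ G) := by
    rw [Finset.disjoint_left]
    intro i hi hi2
    simp only [I, hG, mem_union, mem_Icc, mem_filter] at hi hi2
    omega
  have c1 : 0 < (I N y (y + r - z)).card := by
    refine Finset.card_pos.mpr ⟨y, ?_⟩
    simp only [I, mem_Icc]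
    omega
  have s1 := hM.le y (by omega) (y + r - z)
  have s2 := hM.le v (by omega) (z + r - v)
  have s3 : ∑ i ∈ G, g i ≤ M z * (G.card : ℝ) := by
    have : ∑ i ∈ G, g i ≤ ∑ _i ∈ G, M z := Finset.sum_le_sum fun i hi => by
      simp only [hG, mem_Icc, mem_filter] at hi
      exact hcon i hi.2.1 hi.2.2
    rw [Finset.sum_const, nsmul_eq_mul] at this
    linarith [mul_comm (M z) (G.card : ℝ)]
  rw [hB, Finset.sum_union d2, Finset.sum_union d1, Finset.card_union_of_disjoint d2,
    Finset.card_union_of_disjoint d1] at heq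
  push_cast at heq
  have p1 : M y * ((I N y (y + r - z)).card : ℝ) < M z * ((I N y (y + r - z)).card : ℝ) :=
    mul_lt_mul_of_pos_right h1 (by exact_mod_cast c1)
  have p2 : M v * ((I N v (z + r - v)).card : ℝ) ≤ M z * ((I N v (z + r - v)).card : ℝ) :=
    mul_le_mul_of_nonneg_right h2.le (by positivity)
  nlinarith

end Pool.Agent.TMX.H47
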